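import Mathlib

set_option autoImplicit false
set_option maxHeartbeats 400000

open Filter Topology InnerProductSpace

namespace Pool.Agent.Results.MP_790317_an.Exists

section
variable {H : Type} [NormedAddCommGroup H] [InnerProductSpace ℝ H] [CompleteSpace H]

/-- operators defined on a subspace -/
abbrev Op (H : Type) [NormedAddCommGroup H] [InnerProductSpace ℝ H] : Type := H →ₗ.[ℝ] H

/-- the range of an operator -/
def ran (T : Op H) : Set H := {y | ∃ x : T.domain, T x = y}

/-- the Hilbert space adjoint -/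
noncomputable def adj (T : Op H) : Op H := T.adjoint

/-- minus the adjoint -/
noncomputable def nadj (T : Op H) : Op H := -adj T

/-- densely defined -/
def DD (T : Op H) : Prop := Dense (T.domain : Set H)

/-- closed operator -/
def Cl (T : Op H) : Prop := T.IsClosed

/-- closed range -/
def CR (T : Op H) : Prop := IsClosed (ran T)

/-- graph inclusion -/
def Sub (S T : Op H) : Prop := S ≤ T

/-- the closure -/
noncomputable def clo (T : Op H) : Op H := T.closure

/-- a closed range extension with both isometries equal to the identity -/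
def Ext (A0 B0 : Op H) : Prop :=
  ∃ T : Op H, DD T ∧ Cl T ∧ CR T ∧ Sub A0 T ∧ Sub B0 (nadj T)

/-- the pair asked for -/
def Pair (Ac Bc : Op H) : Prop :=
  DD Ac ∧ DD Bc ∧ Sub Ac (nadj Bc) ∧ Ext (clo Ac) (clo Bc) ∧ ¬CR (clo Ac) ∧ ¬CR (nadj (clo Bc))
end

abbrev H : Type := lp (fun _ : ℕ × ℕ => ℝ) 2

theorem mr (T : H →ₗ.[ℝ] H) (y : H) : y ∈ ran T ↔ ∃ x, (x, y) ∈ T.graph := by
  simp only [ran, Set.mem_ofPred_eq, LinearPMap.mem_graph_iff]
  exact ⟨fun ⟨x, h⟩ => ⟨x, x, rfl, h⟩, fun ⟨_, x, _, h⟩ => ⟨x, h⟩⟩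

theorem mn (T : H →ₗ.[ℝ] H) (x y : H) : (x, y) ∈ (-T).graph ↔ (x, -y) ∈ T.graph := by
  simp only [LinearPMap.mem_graph_iff]
  exact ⟨fun ⟨z, h, e⟩ => ⟨z, h, by rw [← e]; simp⟩,
    fun ⟨z, h, e⟩ => ⟨z, h, by rw [LinearPMap.neg_apply, e, neg_neg]⟩⟩

theorem cc {T : H →ₗ.[ℝ] H} (h : T.IsClosed) : T.closure = T :=
  LinearPMap.eq_of_eq_graph (by
    rw [← h.isClosable.graph_closure_eq_closure_graph, IsClosed.submodule_topologicalClosure_eq h])

theorem ma {T : H →ₗ.[ℝ] H} (h : Dense (T.domain : Set H)) (x y : H) : (x, y) ∈ (adj T).graph ↔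
    ∀ a b, (a, b) ∈ T.graph → ⟪b, x⟫_ℝ - ⟪a, y⟫_ℝ = 0 := by
  rw [adj, LinearPMap.adjoint_graph_eq_graph_adjoint h, Submodule.mem_adjoint_iff]

theorem sm (f : H) : Summable fun q => f q ^ 2 := by
  simpa using (lp.hasSum_norm (p := 2) (by norm_num) f).summable

def mk (f : ℕ × ℕ → ℝ) (h : Summable fun q => f q ^ 2) : H :=
  ⟨f, memℓp_gen (by simpa using h)⟩

theorem cst (f : H) (φ : ℕ → ℕ × ℕ) (hφ : Function.Injective φ) (c : ℝ) (h : ∀ k, f (φ k) = c) :
    c = 0 := by
  have := ((sm f).comp_injective hφ).tendsto_atTop_zero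
  simpa [Function.comp_def, h] using this

theorem z2 : Summable fun k : ℕ => (1 / (k : ℝ)) ^ 2 := by
  simpa using Real.summable_nat_pow_inv.2 one_lt_two

noncomputable def g (j : ℕ) : H := mk (fun q => if q.1 = j then 1 / (q.2 : ℝ) else 0) (by
  rw [← (Prod.mk_right_injective j).summable_iff]
  · simpa [Function.comp_def] using z2
  · rintro ⟨a, b⟩ h
    rw [if_neg fun e => h ⟨b, by simp at e; simp [e]⟩]; simp)

noncomputable def u (i : ℕ) : H := mk (fun q => if q.2 = i then 1 / ((q.1 : ℝ) + 1) else 0) (by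
  rw [← (Prod.mk_left_injective i).summable_iff]
  · simpa [Function.comp_def] using (summable_nat_add_iff 1).2 z2
  · rintro ⟨a, b⟩ h
    rw [if_neg fun e => h ⟨a, by simp at e; simp [e]⟩]; simp)

theorem ev (q : ℕ × ℕ) : Continuous fun f : H => f q := (lp.lipschitzWith_one_eval 2 q).continuous

def G1 : Submodule ℝ (H × H) where
  carrier := {p | ∀ q : ℕ × ℕ, p.2 q = q.2 * p.1 q}
  add_mem' := fun {a b} ha hb q => by simp [ha q, hb q, mul_add]
  zero_mem' := fun q => by simp
  smul_mem' := fun c a ha q => by simp [ha q, mul_left_comm]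

def G2 : Submodule ℝ (H × H) where
  carrier := {p | ∀ j : ℕ, p.1 (j, 0) = (j + 1) * ⟪g j, p.2⟫_ℝ}
  add_mem' := fun {a b} ha hb q => by simp [ha q, hb q, mul_add, inner_add_right]
  zero_mem' := fun q => by simp
  smul_mem' := fun c a ha q => by simp [ha q, mul_left_comm, inner_smul_right]

theorem c1 : IsClosed (G1 : Set (H × H)) := by
  show IsClosed {p : H × H | ∀ q : ℕ × ℕ, p.2 q = q.2 * p.1 q}
  rw [Set.ofPred_forall]
  exact isClosed_iInter fun q => isClosed_eq ((ev q).comp continuous_snd)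
    (continuous_const.mul ((ev q).comp continuous_fst))

theorem c2 : IsClosed (G2 : Set (H × H)) := by
  show IsClosed {p : H × H | ∀ j : ℕ, p.1 (j, 0) = (j + 1) * ⟪g j, p.2⟫_ℝ}
  rw [Set.ofPred_forall]
  exact isClosed_iInter fun q => isClosed_eq ((ev _).comp continuous_fst)
    (continuous_const.mul (continuous_const.inner continuous_snd))

theorem fn (G : Submodule ℝ (H × H)) (h : G ≤ G1) : G.toLinearPMap.graph = G :=
  G.toLinearPMap_graph_eq fun x hx e => lp.ext (funext fun q => by simp [h hx q, e])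

noncomputable def T : H →ₗ.[ℝ] H := G1.toLinearPMap
noncomputable def A : H →ₗ.[ℝ] H := (G1 ⊓ G2).toLinearPMap
theorem gT : T.graph = G1 := fn _ le_rfl
theorem gA : A.graph = G1 ⊓ G2 := fn _ inf_le_left

theorem sy {a b x y : H} (h : (a, b) ∈ G1) (h' : (x, y) ∈ G1) : ⟪b, x⟫_ℝ = ⟪a, y⟫_ℝ := by
  rw [lp.inner_eq_tsum, lp.inner_eq_tsum]
  refine tsum_congr fun q => ?_
  have e := h q; have e' := h' q
  simp only at e e'
  simp [e, e']; ring

theorem tv (j k : ℕ) (c : ℝ) :
    ((lp.single 2 (j, k + 1) c + lp.single 2 (j, 0) ((j + 1) * c) : H),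
      (lp.single 2 (j, k + 1) ((k + 1) * c) : H)) ∈ G1 ⊓ G2 := by
  refine ⟨fun ⟨a, b⟩ => ?_, fun i => ?_⟩
  · simp only [lp.coeFn_add, Pi.add_apply, lp.single_apply, Pi.single_apply, Prod.mk.injEq]
    split_ifs with h1 h2 h2 <;> simp_all
  · simp only [lp.coeFn_add, Pi.add_apply, lp.single_apply, Pi.single_apply, Prod.mk.injEq,
      lp.inner_single_right]
    by_cases h : i = j
    · subst h; simp [g, mk]; left; field_simp
    · simp [g, mk, h, Ne.symm h]

theorem dA : Dense (A.domain : Set H) := by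
  rw [Submodule.dense_iff_topologicalClosure_eq_top, Submodule.topologicalClosure_eq_top_iff,
    Submodule.eq_bot_iff]
  intro w hw
  have a : ∀ j k : ℕ, w (j, k + 1) = -((j + 1) * w (j, 0)) := fun j k => by
    have := hw _ (LinearPMap.mem_domain_of_mem_graph (gA ▸ tv j k 1))
    rw [inner_add_left, lp.inner_single_left, lp.inner_single_left] at this
    simp at this; linarith
  have b : ∀ j : ℕ, -((j + 1) * w (j, 0)) = 0 := fun j =>
    cst w (fun k => (j, k + 1)) (fun _ _ h => by simpa using h) _ (a j)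
  refine lp.ext (funext ?_)
  rintro ⟨j, _ | k⟩
  · have : (j : ℝ) + 1 ≠ 0 := by positivity
    simpa [this] using b j
  · simp [a, b]

theorem AT : A ≤ T := LinearPMap.le_of_le_graph (by rw [gA, gT]; exact inf_le_left)

theorem ncl (S : H →ₗ.[ℝ] H) (i : ℕ) (h : ∀ j c, (lp.single 2 (j, i) c : H) ∈ ran S)
    (hc : IsClosed (ran S)) : u i ∈ ran S := by
  have e : ran S = LinearMap.range S.toFun := rfl
  rw [e] at h hc ⊢
  refine hc.mem_of_tendsto (lp.hasSum_single (by norm_num) (u i)) (.of_forall fun s => ?_)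
  refine Submodule.sum_mem _ fun ⟨a, b⟩ _ => ?_
  by_cases hb : b = i
  · subst hb; exact h _ _
  · simp [u, mk, hb]

theorem main : ∃ Ac Bc : H →ₗ.[ℝ] H, Dense (Ac.domain : Set H) ∧ Dense (Bc.domain : Set H) ∧
    Ac ≤ -adj Bc ∧ Ext Ac.closure Bc.closure ∧ ¬IsClosed (ran Ac.closure) ∧
      ¬IsClosed (ran (-adj Bc.closure)) := by
  unfold Ext DD Cl CR Sub nadj
  have cA : A.IsClosed := by rw [LinearPMap.IsClosed, gA]; exact c1.inter c2
  have cB : (-A).IsClosed := by
    have : ((-A).graph : Set (H × H)) = (fun p => (p.1, -p.2)) ⁻¹' A.graph := by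
      ext ⟨x, y⟩; exact mn A x y
    rw [LinearPMap.IsClosed, this]; exact IsClosed.preimage (by fun_prop) cA
  have dT : Dense (T.domain : Set H) := dA.mono AT.1
  have key : ∀ x y, (x, y) ∈ (-adj (-A)).graph ↔
      ∀ a b, (a, b) ∈ G1 ⊓ G2 → ⟪b, x⟫_ℝ = ⟪a, y⟫_ℝ := fun x y => by
    rw [mn, ma (T := -A) dA]
    refine ⟨fun h a b e => ?_, fun h a b e => ?_⟩
    · have := h a (-b) (by rwa [mn, neg_neg, gA])
      rw [inner_neg_left, inner_neg_right] at this; linarith
    · rw [mn, gA] at e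
      have := h a (-b) e
      rw [inner_neg_left] at this; rw [inner_neg_right]; linarith
  refine ⟨A, -A, dA, dA, LinearPMap.le_of_le_graph ?_, ?_, ?_, ?_⟩
  · rintro ⟨x, y⟩ h
    rw [gA] at h
    exact (key x y).2 fun a b e => sy e.1 h.1
  · rw [cc cA, cc cB]
    refine ⟨T, dT, by rw [LinearPMap.IsClosed, gT]; exact c1, ?_, AT, LinearPMap.le_of_le_graph ?_⟩
    · have : ran T = ⋂ j : ℕ, {y : H | y (j, 0) = 0} := by
        ext y
        simp only [mr, gT, Set.mem_iInter, Set.mem_ofPred_eq]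
        refine ⟨fun ⟨x, h⟩ j => by simpa using h (j, 0), fun h => ⟨mk (fun q => y q / q.2)
          (.of_nonneg_of_le (fun _ => sq_nonneg _) (fun ⟨a, b⟩ => ?_) (sm y)), fun ⟨a, b⟩ => ?_⟩⟩
        · cases b with
          | zero => simp [sq_nonneg]
          | succ b =>
            rw [div_pow]
            exact div_le_self (sq_nonneg _) (one_le_pow₀ (by simp))
        · cases b with
          | zero => simp [h]
          | succ b => simp only [mk]; field_simp
      rw [this]; exact isClosed_iInter fun j => isClosed_eq (ev _) continuous_const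
    · rintro ⟨x, y⟩ h
      rw [mn, gA] at h
      rw [mn, ma dT]
      intro a b e
      rw [gT] at e; rw [sy e h.1, sub_self]
  · rw [cc cA]
    intro h
    obtain ⟨x, hx⟩ := (mr _ _).1 (ncl A 1 (fun j c => (mr _ _).2 ⟨_, by
      simpa [gA] using tv j 0 c⟩) h)
    rw [gA] at hx
    refine one_ne_zero (cst x (fun j => (j, 0)) (fun _ _ h => by simpa using h) 1 fun j => ?_)
    rw [hx.2 j, lp.inner_eq_tsum, tsum_eq_single (j, 1)]
    · simp [g, u, mk]; field_simp
    · rintro ⟨a, b⟩ hne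
      by_cases h1 : a = j <;> by_cases h2 : b = 1 <;> simp_all [g, u, mk]
  · rw [cc cB]
    intro h
    obtain ⟨x, hx⟩ := (mr _ _).1 (ncl _ 0 (fun j c => (mr _ _).2 ⟨(c * (j + 1)) • g j, by
      rw [key]; intro a b e
      have := e.2 j
      rw [inner_smul_right, lp.inner_single_right, real_inner_comm]
      simp only at this
      simp [this]; ring⟩) h)
    refine one_ne_zero (cst x (fun j => (j, 1)) (fun _ _ h => by simpa using h) 1 fun j => ?_)
    have := (key _ _).1 hx _ _ (tv j 0 1)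
    rw [inner_add_left, lp.inner_single_left, lp.inner_single_left, lp.inner_single_left] at this
    simp [u, mk] at this
    rw [this]; field_simp

theorem result : ∃ (H : Type) (_ : NormedAddCommGroup H) (_ : InnerProductSpace ℝ H)
    (_ : CompleteSpace H) (Ac Bc : Op H), Pair Ac Bc :=
  ⟨H, _, _, inferInstance, main⟩

end Pool.Agent.Results.MP_790317_an.Exists
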